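import Mathlib
import Pool.Prelude.Def_F_c31e40fa

/-!
# Project MB: the area of the non-hyperbolic part of the Multibrot sets

`z_{j+1} = f_c^{j+1}(0) = c * A j`, `A j = 1 + X j / n`, `X (j+1) = n c^(n-1) (A j)^n`,
`L j` is the logarithmic derivative of `X j` with respect to `c`, `M j` the derivative of `L j`.
-/

set_option autoImplicit false
open Metric MeasureTheory Set

namespace Pool.Agent.W747.MB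

/-- The rescaled critical orbit. -/
noncomputable def X (n : ℕ) (c : ℂ) : ℕ → ℂ
  | 0 => 0
  | (j + 1) => n * c ^ (n - 1) * (1 + X n c j / n) ^ n

/-- `f_c^{j+1}(0) / c`. -/
noncomputable def A (n : ℕ) (c : ℂ) (j : ℕ) : ℂ := 1 + X n c j / n

/-- The logarithmic derivative of `X j`. -/
noncomputable def L (n : ℕ) (c : ℂ) : ℕ → ℂ
  | 0 => 0
  | (j + 1) => (n - 1) / c + X n c j * L n c j / A n c j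

/-- The derivative of `L j`. -/
noncomputable def M (n : ℕ) (c : ℂ) : ℕ → ℂ
  | 0 => 0
  | (j + 1) => -((n - 1) / c ^ 2) + X n c j * (L n c j ^ 2 + M n c j) / A n c j
      - (X n c j * L n c j / A n c j) ^ 2 / n

/-- The map `z ↦ z ^ n + c`. -/
def f (n : ℕ) (c : ℂ) : ℂ → ℂ := fun z => z ^ n + c

/-- The modulus of `X 1`. -/
noncomputable def Y (n : ℕ) (c : ℂ) : ℝ := n * ‖c‖ ^ (n - 1)

/-- The parameters `c` for which `z ^ n + c` has an attracting cycle. -/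
def hyp (n : ℕ) : Set ℂ := {c | ∃ m z, N62a1eb23.IsAttractingCycle (fun z => z ^ n + c) m z}

/-- The non-hyperbolic part of the Multibrot set. -/
def Bad (n : ℕ) : Set ℂ := N62a1eb23.multibrotSet n \ hyp n

/-- The large disc at level `j`. -/
noncomputable def DD (n : ℕ) (c₀ : ℂ) (j : ℕ) : Set ℂ := closedBall c₀ (1 / (100 * ‖L n c₀ j‖))

/-- The small disc at level `j`. -/
noncomputable def dd (n : ℕ) (c₀ : ℂ) (j : ℕ) : Set ℂ := closedBall c₀ (1 / (200 * ‖L n c₀ j‖))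

/-- Geometric control at level `j` on the large disc around `c₀`. -/
structure Geo (n : ℕ) (c₀ : ℂ) (j : ℕ) : Prop where
  j1 : 1 ≤ j
  L0 : L n c₀ j ≠ 0
  nz : ∀ c ∈ DD n c₀ j, c ≠ 0 ∧ ∀ i < j, A n c i ≠ 0
  big : ∀ c ∈ DD n c₀ j, ((n : ℝ) - 1) / ‖c‖ ≤ ‖L n c j‖
  nu : ∀ c ∈ DD n c₀ j, ‖M n c j‖ ≤ ‖L n c j‖ ^ 2

/-- Derivative bound for the `j`-th iterate near the critical value. -/
def PhAt (n : ℕ) (c : ℂ) (j : ℕ) (D : ℝ) : Prop :=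
  ∀ z, ‖z - c‖ ≤ ‖c‖ / (10 * n * D) → ‖deriv (f n c)^[j] z‖ ≤ D

/-- A configuration. -/
structure Cfg (n : ℕ) (c₀ : ℂ) (j : ℕ) (D : ℝ) : Prop where
  geo : Geo n c₀ j
  D1 : 1 ≤ D
  ph : ∀ c ∈ DD n c₀ j, PhAt n c j D

/-! ## The parts -/

/-- DER -/
def P_DER : Prop := ∀ n : ℕ, 2 ≤ n → ∀ (c : ℂ) (j : ℕ), c ≠ 0 → (∀ i < j, A n c i ≠ 0) →
  HasDerivAt (fun c => X n c j) (X n c j * L n c j) c ∧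
  HasDerivAt (fun c => L n c j) (M n c j) c

/-- VAR -/
def P_VAR : Prop := ∀ n : ℕ, 2 ≤ n → ∀ (c₀ : ℂ) (j : ℕ), Geo n c₀ j → ∀ c ∈ DD n c₀ j,
  ‖L n c j - L n c₀ j‖ ≤ ‖L n c₀ j‖ / 50 ∧ ‖X n c j - X n c₀ j‖ ≤ ‖X n c₀ j‖ / 50 ∧
  |Y n c - Y n c₀| ≤ Y n c₀ / 50

/-- STG: the geometric control passes to the next level. -/
def P_STG : Prop := ∀ n : ℕ, 10 ^ 6 ≤ n → ∀ (c₀ c₁ : ℂ) (j : ℕ), Geo n c₀ j →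
  10 ^ 4 ≤ ‖X n c₀ j‖ → ‖X n c₀ j‖ ≤ 3 * n → 1 / 4 ≤ Y n c₀ → Y n c₀ ≤ 3 * n →
  c₁ ∈ dd n c₀ j → 1 ≤ ‖X n c₁ (j + 1)‖ → ‖X n c₁ (j + 1)‖ ≤ 3 * n →
  Geo n c₁ (j + 1) ∧ DD n c₁ (j + 1) ⊆ DD n c₀ j ∧ ∀ c ∈ DD n c₁ (j + 1), 4 / 5 ≤ ‖A n c j‖

/-- PHS: the derivative bound passes to the next level. -/
def P_PHS : Prop := ∀ n : ℕ, 2 ≤ n → ∀ (c : ℂ) (j : ℕ) (D D' : ℝ), c ≠ 0 → 1 ≤ D → D ≤ D' →
  PhAt n c j D → 4 / 5 ≤ ‖A n c j‖ → 3 / 2 * ‖X n c (j + 1)‖ * D ≤ D' → PhAt n c (j + 1) D'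

/-- ATT: a criterion for an attracting cycle of period `j + 1`. -/
def P_ATT : Prop := ∀ n : ℕ, 2 ≤ n → ∀ (c : ℂ) (j : ℕ) (D : ℝ), 1 / 4 ≤ Y n c → 1 ≤ D →
  PhAt n c j D → Y n c * (‖A n c j‖ + 1 / (10 * n)) ^ (n - 1) ≤ 1 / (40 * D) → c ∈ hyp n

/-- ALV: bounds on the Multibrot set. -/
def P_ALV : Prop := ∀ n : ℕ, 10 ^ 6 ≤ n → ∀ c ∈ Bad n,
  1 / 3 ≤ Y n c ∧ Y n c ≤ 2 * n ∧ ∀ j, ‖X n c j‖ ≤ 3 * n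

/-- BAS: the configuration of level one. -/
def P_BAS : Prop := ∀ n : ℕ, 2 ≤ n → ∀ c₀ : ℂ, 1 ≤ Y n c₀ → Cfg n c₀ 1 (2 * Y n c₀) ∧
  L n c₀ 1 = (n - 1) / c₀ ∧ ‖X n c₀ 1‖ = Y n c₀

/-- SLB: area of a slab. -/
def P_SLB : Prop := ∀ (g ℓ : ℂ → ℂ) (c₀ ℓ₀ : ℂ) (R α β : ℝ), 0 < R → ℓ₀ ≠ 0 → α ≤ β →
  (∀ c ∈ closedBall c₀ R, g c ≠ 0 ∧ HasDerivAt g (g c * ℓ c) c ∧ ‖ℓ c - ℓ₀‖ ≤ ‖ℓ₀‖ / 2) →
  volume {c | c ∈ closedBall c₀ R ∧ α ≤ Real.log ‖g c‖ ∧ Real.log ‖g c‖ ≤ β} ≤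
    ENNReal.ofReal (4 * R * (β - α) / ‖ℓ₀‖)

/-- VIT: Vitali covering. -/
def P_VIT : Prop := ∀ (P U B : Set ℂ) (r : ℂ → ℝ) (R₁ F : ℝ), 0 ≤ F →
  (∀ x ∈ P, 0 < r x ∧ r x ≤ R₁ ∧ closedBall x (r x) ⊆ U ∧
    volume (B ∩ closedBall x (5 * r x)) ≤ ENNReal.ofReal F * volume (closedBall x (r x))) →
  volume (B ∩ P) ≤ ENNReal.ofReal F * volume U

/-- ANN: the area of an annulus. -/
def P_ANN : Prop := ∀ n : ℕ, 2 ≤ n → ∀ α β : ℝ, 0 < α → α ≤ β → β ≤ 12 * n →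
  volume {c : ℂ | α ≤ Y n c ∧ Y n c ≤ β} ≤ ENNReal.ofReal (2000 * Real.log (β / α) / n)

/-- LOW: at a non-hyperbolic parameter `A j` is not small and `X (j + 1)` is not very small. -/
def P_LOW : Prop := ∀ n : ℕ, 10 ^ 6 ≤ n → ∀ (c : ℂ) (j : ℕ) (D : ℝ), c ∈ Bad n → 1 ≤ D →
  PhAt n c j D → Real.log D ^ 4 ≤ 3 * n → 98 / 100 ≤ ‖A n c j‖ ∧ ‖A n c j‖ ≤ 101 / 100 ∧
    -(4 + Real.log D) ≤ Real.log ‖X n c (j + 1)‖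

/-- SLC: the slabs at level `j`, when the disc contains a non-hyperbolic parameter. -/
def P_SLC : Prop := ∀ n : ℕ, 10 ^ 6 ≤ n → ∀ (c₀ b : ℂ) (j : ℕ), Geo n c₀ j →
  10 ^ 4 ≤ ‖X n c₀ j‖ → ‖X n c₀ j‖ ≤ 3 * n → b ∈ DD n c₀ j →
  98 / 100 ≤ ‖A n b j‖ → ‖A n b j‖ ≤ 101 / 100 → ∀ α β : ℝ, α ≤ β →
  volume {c | c ∈ DD n c₀ j ∧ α ≤ Real.log ‖X n c (j + 1)‖ ∧ Real.log ‖X n c (j + 1)‖ ≤ β} ≤
    ENNReal.ofReal (1100 * (β - α) / ‖X n c₀ j‖) * volume (dd n c₀ j)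

/-- LOC: the local estimate at level one (proved by helper747 from the other parts). -/
def P_LOC : Prop := ∃ C₂ : ℝ, 0 < C₂ ∧ ∀ n : ℕ, 10 ^ 6 ≤ n → ∀ c₀ : ℂ, 10 ^ 20 ≤ Y n c₀ →
  Y n c₀ ≤ 3 * n → volume (Bad n ∩ dd n c₀ 1) ≤
    ENNReal.ofReal (C₂ * (1 + Real.log (Y n c₀)) / Y n c₀) * volume (dd n c₀ 1)

/-- FIN1: the local estimate in discs of radius `‖c₀‖ / n`. -/
def P_FIN1 : Prop := ∃ C : ℝ, 0 < C ∧ ∀ n : ℕ, 2 ≤ n → ∀ c₀ : ℂ, 1 ≤ Y n c₀ →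
  volume (Bad n ∩ closedBall c₀ (‖c₀‖ / n)) ≤
    ENNReal.ofReal (C * (1 + Real.log (Y n c₀)) / Y n c₀) * volume (closedBall c₀ (‖c₀‖ / n))

/-- FIN2: the tail estimate. -/
def P_FIN2 : Prop := ∃ C : ℝ, 0 < C ∧ ∀ n : ℕ, 2 ≤ n → ∀ Y₀ : ℝ, 1 ≤ Y₀ →
  volume (Bad n ∩ {c | Y₀ ≤ Y n c}) ≤ ENNReal.ofReal (C * (1 + Real.log Y₀) / (n * Y₀))

/-- FIN3: the total area. -/
def P_FIN3 : Prop := ∃ C : ℝ, 0 < C ∧ ∀ n : ℕ, 2 ≤ n →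
  volume (Bad n) ≤ ENNReal.ofReal (C / n)

end Pool.Agent.W747.MB
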