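import Mathlib
import Pool.Agent.W747.MB.Defs

set_option autoImplicit false
open Metric MeasureTheory Set

namespace Pool.Agent.W747.MB

/-- The threshold. -/
noncomputable def umin (D : ℝ) : ℝ := Real.log (10 ^ 20) + 8 * Real.log (1 + Real.log D)

theorem log20 : 46 ≤ Real.log (10 ^ 20) ∧ Real.log (10 ^ 20) ≤ 47 := by
  have h10 : Real.log (10:ℝ) = Real.log 2 + Real.log 5 := by
    rw [← Real.log_mul (by norm_num) (by norm_num)]; norm_num
  constructor
  · rw [Real.le_log_iff_exp_le (by norm_num)]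
    have h1 : Real.exp 46 = (Real.exp 1) ^ 46 := by rw [← Real.exp_nat_mul]; norm_num
    rw [h1]
    calc (Real.exp 1) ^ 46 ≤ (2.7182818286:ℝ) ^ 46 := by
          gcongr
          exact Real.exp_one_lt_d9.le
      _ ≤ 10 ^ 20 := by norm_num
  · rw [Real.log_le_iff_le_exp (by norm_num)]
    have h1 : Real.exp 47 = (Real.exp 1) ^ 47 := by rw [← Real.exp_nat_mul]; norm_num
    rw [h1]
    calc (10:ℝ) ^ 20 ≤ (2.7182818283:ℝ) ^ 47 := by norm_num
      _ ≤ (Real.exp 1) ^ 47 := by
          gcongr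
          exact Real.exp_one_gt_d9.le

theorem umin_ge {D : ℝ} (hD : 1 ≤ D) : 46 ≤ umin D := by
  have h1 := Real.log_nonneg hD
  have h2 : 0 ≤ Real.log (1 + Real.log D) := Real.log_nonneg (by linarith)
  unfold umin
  linarith [log20.1]

theorem umin_le {D : ℝ} (hD : 1 ≤ D) : umin D ≤ 47 + 8 * Real.log D := by
  have h1 := Real.log_nonneg hD
  have h2 : Real.log (1 + Real.log D) ≤ Real.log D := by
    have := Real.log_le_sub_one_of_pos (x := 1 + Real.log D) (by linarith)
    linarith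
  unfold umin
  linarith [log20.2]

theorem exp_umin {D : ℝ} (hD : 1 ≤ D) : 10 ^ 20 ≤ Real.exp (umin D) := by
  have h1 := Real.log_nonneg hD
  have h2 : 0 ≤ Real.log (1 + Real.log D) := Real.log_nonneg (by linarith)
  rw [← Real.log_le_iff_le_exp (by norm_num)]
  unfold umin
  linarith

theorem exp_eighth {u : ℝ} (hu : 46 ≤ u) : 1 + u ≤ Real.exp (u / 8) := by
  have h1 : Real.exp (u / 8) = Real.exp 5 * Real.exp (u / 8 - 5) := by
    rw [← Real.exp_add]; congr 1; ring
  have h2 : 143 ≤ Real.exp 5 := by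
    have h3 : Real.exp 5 = (Real.exp 1) ^ 5 := by rw [← Real.exp_nat_mul]; norm_num
    rw [h3]
    calc (143:ℝ) ≤ (2.7182818283:ℝ) ^ 5 := by norm_num
      _ ≤ (Real.exp 1) ^ 5 := by
          gcongr
          exact Real.exp_one_gt_d9.le
  have h3 := Real.add_one_le_exp (u / 8 - 5)
  rw [h1]
  nlinarith

theorem num1 {D u : ℝ} (hD : 1 ≤ D) (hu : umin D ≤ u) :
    Real.log (2 * Real.exp u * D) ^ 4 ≤ Real.exp u := by
  have hΛ := Real.log_nonneg hD
  set Λ := Real.log D with hΛd
  have h46 : 46 ≤ u := (umin_ge hD).trans hu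
  have h1 : Real.log (2 * Real.exp u * D) = Real.log 2 + u + Λ := by
    rw [Real.log_mul (by positivity) (by positivity), Real.log_mul (by norm_num) (by positivity),
      Real.log_exp]
  have hl2 : Real.log 2 ≤ 1 := by linarith [Real.log_two_lt_d9]
  have hl2' : 0 ≤ Real.log 2 := Real.log_nonneg (by norm_num)
  have h2 : Real.log 2 + u + Λ ≤ (1 + u) * (1 + Λ) := by nlinarith
  have h3 : (1 + u) ^ 4 ≤ Real.exp (u / 2) := by
    have h4 := exp_eighth h46
    calc (1 + u) ^ 4 ≤ (Real.exp (u / 8)) ^ 4 := by gcongr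
      _ = Real.exp (u / 2) := by rw [← Real.exp_nat_mul]; congr 1; push_cast; ring
  have h4 : (1 + Λ) ^ 4 ≤ Real.exp (u / 2) := by
    have h5 : 8 * Real.log (1 + Λ) ≤ u := by
      have : umin D = Real.log (10 ^ 20) + 8 * Real.log (1 + Λ) := rfl
      linarith [log20.1]
    calc (1 + Λ) ^ 4 = Real.exp (4 * Real.log (1 + Λ)) := by
          rw [mul_comm, Real.exp_mul, Real.exp_log (by linarith)]
          norm_num
      _ ≤ Real.exp (u / 2) := by
          apply Real.exp_le_exp.mpr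
          linarith
  rw [h1]
  calc (Real.log 2 + u + Λ) ^ 4 ≤ ((1 + u) * (1 + Λ)) ^ 4 := by
        gcongr
    _ = (1 + u) ^ 4 * (1 + Λ) ^ 4 := by ring
    _ ≤ Real.exp (u / 2) * Real.exp (u / 2) := by gcongr
    _ = Real.exp u := by rw [← Real.exp_add]; congr 1; ring

/-- The estimate at all configurations. -/
def Frac (n : ℕ) (Φ : ℝ) : Prop := ∀ (c₀ : ℂ) (j : ℕ) (D : ℝ), Cfg n c₀ j D →
  10 ^ 20 ≤ ‖X n c₀ j‖ → ‖X n c₀ j‖ ≤ 3 * n → Real.log D ^ 4 ≤ ‖X n c₀ j‖ →
  1 / 4 ≤ Y n c₀ → Y n c₀ ≤ 3 * n →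
  volume (Bad n ∩ dd n c₀ j) ≤ ENNReal.ofReal (Φ / √‖X n c₀ j‖) * volume (dd n c₀ j)

theorem Frac.mono {n : ℕ} {Φ Φ' : ℝ} (h : Frac n Φ) (hΦ : Φ ≤ Φ') : Frac n Φ' := by
  intro c₀ j D h1 h2 h3 h4 h5 h6
  refine (h c₀ j D h1 h2 h3 h4 h5 h6).trans ?_
  gcongr

theorem vol_dd (n : ℕ) (c₀ : ℂ) (j : ℕ) :
    volume (dd n c₀ j) = 25 * volume (closedBall c₀ (1 / (1000 * ‖L n c₀ j‖))) := by
  unfold dd
  rw [Complex.volume_closedBall, Complex.volume_closedBall]
  have h1 : 1 / (200 * ‖L n c₀ j‖) = 5 * (1 / (1000 * ‖L n c₀ j‖)) := by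
    rw [show (1000:ℝ) * ‖L n c₀ j‖ = 5 * (200 * ‖L n c₀ j‖) by ring, one_div, one_div, mul_inv]
    ring
  rw [h1, ENNReal.ofReal_mul (by norm_num)]
  rw [show ENNReal.ofReal 5 = 5 by norm_num]
  ring

theorem geom_sum {K : ℕ} : ∑ m ∈ Finset.range K, Real.exp (-(m:ℝ) / 2) ≤ 3 := by
  have h1 : Real.exp (-(1:ℝ) / 2) ≤ 2 / 3 := by
    have h2 : (3 / 2 : ℝ) ≤ Real.exp (1 / 2) := by
      have := Real.add_one_le_exp (1 / 2 : ℝ); linarith
    have h3 : Real.exp (-(1:ℝ) / 2) = (Real.exp (1 / 2))⁻¹ := by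
      rw [← Real.exp_neg]; congr 1; ring
    rw [h3, inv_le_comm₀ (Real.exp_pos _) (by norm_num)]
    linarith
  have h2 : ∀ m : ℕ, Real.exp (-(m:ℝ) / 2) = Real.exp (-(1:ℝ) / 2) ^ m := by
    intro m
    rw [← Real.exp_nat_mul]
    congr 1
    ring
  simp only [h2]
  calc ∑ m ∈ Finset.range K, Real.exp (-(1:ℝ) / 2) ^ m
      ≤ ∑ m ∈ Finset.range K, (2 / 3 : ℝ) ^ m := by
        apply Finset.sum_le_sum
        intro m _
        gcongr
    _ ≤ 3 := by
        rw [geom_sum_eq (by norm_num)]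
        have : (0:ℝ) ≤ (2 / 3) ^ K := by positivity
        rw [div_le_iff_of_neg (by norm_num)]
        linarith

variable {n : ℕ}

theorem recursion (hV : P_VAR) (hG : P_STG) (hP : P_PHS) (hL : P_ALV) (hT : P_VIT)
    (hW : P_LOW) (hS : P_SLC) (hn : 10 ^ 6 ≤ n) {Φ : ℝ} (hΦ : 0 ≤ Φ) (hF : Frac n Φ)
    {c₀ : ℂ} {j : ℕ} {D : ℝ} (cfg : Cfg n c₀ j D)
    (h20 : 10 ^ 20 ≤ ‖X n c₀ j‖) (h3 : ‖X n c₀ j‖ ≤ 3 * n)
    (hlog : Real.log D ^ 4 ≤ ‖X n c₀ j‖) (hY1 : 1 / 4 ≤ Y n c₀) (hY2 : Y n c₀ ≤ 3 * n) :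
    volume (Bad n ∩ dd n c₀ j) ≤
      ENNReal.ofReal ((1100 * (umin D + 4 + Real.log D) + Φ / 1000) / ‖X n c₀ j‖) *
        volume (dd n c₀ j) := by
  have hn' : (10:ℝ) ^ 6 ≤ n := by exact_mod_cast hn
  have hn2 : 2 ≤ n := le_trans (by norm_num) hn
  have hD := cfg.D1
  have hΛ := Real.log_nonneg hD
  have hu46 := umin_ge hD
  set s := ‖X n c₀ j‖ with hs
  have hs0 : 0 < s := lt_of_lt_of_le (by norm_num) h20
  have hLp : 0 < ‖L n c₀ j‖ := norm_pos_iff.mpr cfg.geo.L0
  have hsub : dd n c₀ j ⊆ DD n c₀ j := by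
    apply closedBall_subset_closedBall
    gcongr
    norm_num
  rcases (Bad n ∩ dd n c₀ j).eq_empty_or_nonempty with he | ⟨b, hbB, hbd⟩
  · rw [he, measure_empty]; exact zero_le
  have hlow : ∀ c ∈ Bad n, c ∈ DD n c₀ j → 98 / 100 ≤ ‖A n c j‖ ∧ ‖A n c j‖ ≤ 101 / 100 ∧
      -(4 + Real.log D) ≤ Real.log ‖X n c (j + 1)‖ := fun c hc hcd =>
    hW n hn c j D hc hD (cfg.ph c hcd) (hlog.trans h3)
  have hb := hlow b hbB (hsub hbd)
  have h104 : (10:ℝ) ^ 4 ≤ s := le_trans (by norm_num) h20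
  have slab := hS n hn c₀ b j cfg.geo h104 h3 (hsub hbd) hb.1 hb.2.1
  set K : ℕ := ⌈Real.log (3 * n)⌉₊ + 1 with hK
  set R : ℕ → Set ℂ := fun m => {c | c ∈ Bad n ∧ c ∈ dd n c₀ j ∧
    umin D + m ≤ Real.log ‖X n c (j + 1)‖ ∧ Real.log ‖X n c (j + 1)‖ ≤ umin D + m + 1} with hR
  set R0 : Set ℂ := {c | c ∈ DD n c₀ j ∧ -(4 + Real.log D) ≤ Real.log ‖X n c (j + 1)‖ ∧
    Real.log ‖X n c (j + 1)‖ ≤ umin D} with hR0
  have hcov : Bad n ∩ dd n c₀ j ⊆ R0 ∪ ⋃ m ∈ Finset.range K, R m := by
    rintro c ⟨hc1, hc2⟩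
    have h5 := (hlow c hc1 (hsub hc2)).2.2
    rcases le_or_gt (Real.log ‖X n c (j + 1)‖) (umin D) with h6 | h6
    · exact Or.inl ⟨hsub hc2, h5, h6⟩
    · right
      set u := Real.log ‖X n c (j + 1)‖ with hu
      have h7 : ‖X n c (j + 1)‖ ≤ 3 * n := (hL n hn c hc1).2.2 (j + 1)
      have h8 : 0 < ‖X n c (j + 1)‖ := by
        by_contra h9
        have : ‖X n c (j + 1)‖ = 0 := le_antisymm (not_lt.mp h9) (norm_nonneg _)
        rw [hu, this, Real.log_zero] at h6
        linarith
      have h9 : u ≤ Real.log (3 * n) := Real.log_le_log h8 h7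
      have h10 : 0 ≤ u - umin D := by linarith
      rw [Set.mem_iUnion₂]
      refine ⟨⌊u - umin D⌋₊, ?_, hc1, hc2, ?_, ?_⟩
      · rw [Finset.mem_range, hK]
        have h11 : ⌊u - umin D⌋₊ ≤ ⌈Real.log (3 * n)⌉₊ := by
          refine (Nat.floor_le_ceil _).trans (Nat.ceil_le_ceil ?_)
          linarith
        omega
      · have := Nat.floor_le h10
        linarith
      · have := (Nat.lt_floor_add_one (u - umin D)).le
        linarith
  have hR0v : volume R0 ≤ ENNReal.ofReal (1100 * (umin D + 4 + Real.log D) / s) *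
      volume (dd n c₀ j) := by
    have := slab (-(4 + Real.log D)) (umin D) (by linarith)
    refine this.trans (le_of_eq ?_)
    congr 3
    ring
  have hRv : ∀ m : ℕ, volume (R m) ≤
      ENNReal.ofReal (82500 * Φ * (Real.exp (-(umin D) / 2) * Real.exp (-(m:ℝ) / 2)) / s) *
      volume (dd n c₀ j) := by
    intro m
    set U : Set ℂ := {c | c ∈ DD n c₀ j ∧ umin D + m - 1 ≤ Real.log ‖X n c (j + 1)‖ ∧
      Real.log ‖X n c (j + 1)‖ ≤ umin D + m + 2} with hU
    have hUv : volume U ≤ ENNReal.ofReal (3300 / s) * volume (dd n c₀ j) := by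
      have := slab (umin D + m - 1) (umin D + m + 2) (by linarith)
      refine this.trans (le_of_eq ?_)
      congr 2
      ring
    have hm0 : (0:ℝ) ≤ m := Nat.cast_nonneg m
    have key : volume (Bad n ∩ R m) ≤
        ENNReal.ofReal (25 * Φ * (Real.exp (-(umin D) / 2) * Real.exp (-(m:ℝ) / 2))) *
          volume U := by
      refine hT (R m) U (Bad n) (fun x => 1 / (1000 * ‖L n x (j + 1)‖))
        (1 / (50 * ‖L n c₀ j‖)) _ (by positivity) ?_
      rintro x ⟨hx1, hx2, hx3, hx4⟩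
      set u := Real.log ‖X n x (j + 1)‖ with hu
      have h6 : umin D ≤ u := by linarith
      have h8 : 0 < ‖X n x (j + 1)‖ := by
        by_contra h9
        have : ‖X n x (j + 1)‖ = 0 := le_antisymm (not_lt.mp h9) (norm_nonneg _)
        rw [hu, this, Real.log_zero] at h6
        linarith
      have h9 : ‖X n x (j + 1)‖ = Real.exp u := (Real.exp_log h8).symm
      have h10 : 10 ^ 20 ≤ ‖X n x (j + 1)‖ := by
        rw [h9]
        exact (exp_umin hD).trans (Real.exp_le_exp.mpr h6)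
      have h11 : 1 ≤ ‖X n x (j + 1)‖ := le_trans (by norm_num) h10
      have halv := hL n hn x hx1
      have h12 := halv.2.2 (j + 1)
      obtain ⟨g1, g2, g3⟩ := hG n hn c₀ x j cfg.geo h104 h3 hY1 hY2 hx2 h11 h12
      have hLx : 0 < ‖L n x (j + 1)‖ := norm_pos_iff.mpr g1.L0
      have hXn : 0 ≤ ‖X n x (j + 1)‖ := norm_nonneg _
      have cfg' : Cfg n x (j + 1) (2 * ‖X n x (j + 1)‖ * D) := by
        refine ⟨g1, by nlinarith, ?_⟩
        intro c hc
        have hc' := g2 hc
        have hvar := (hV n hn2 x (j + 1) g1 c hc).2.1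
        have hX2 : ‖X n c (j + 1)‖ ≤ (1 + 1 / 50) * ‖X n x (j + 1)‖ := by
          have := norm_sub_norm_le (X n c (j + 1)) (X n x (j + 1))
          linarith
        refine hP n hn2 c j D _ (cfg.geo.nz c hc').1 hD (by nlinarith) (cfg.ph c hc') (g3 c hc) ?_
        calc 3 / 2 * ‖X n c (j + 1)‖ * D ≤ 3 / 2 * ((1 + 1 / 50) * ‖X n x (j + 1)‖) * D := by
              gcongr
          _ ≤ 2 * ‖X n x (j + 1)‖ * D := by
              have : 0 ≤ ‖X n x (j + 1)‖ * D := by positivity
              nlinarith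
      have hlog' : Real.log (2 * ‖X n x (j + 1)‖ * D) ^ 4 ≤ ‖X n x (j + 1)‖ := by
        rw [h9]
        exact num1 hD h6
      have hfr := hF x (j + 1) _ cfg' h10 h12 hlog' (by linarith [halv.1]) (by linarith [halv.2.1])
      have hr0 : 0 < 1 / (1000 * ‖L n x (j + 1)‖) := by positivity
      have hxDD : x ∈ DD n x (j + 1) := mem_closedBall_self (by positivity)
      refine ⟨hr0, ?_, ?_, ?_⟩
      · -- the radius is bounded
        have h13 : (x + ((1 / (100 * ‖L n x (j + 1)‖) : ℝ) : ℂ)) ∈ DD n x (j + 1) := by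
          unfold DD
          rw [mem_closedBall, dist_eq_norm, add_sub_cancel_left, Complex.norm_real,
            Real.norm_eq_abs, abs_of_pos (by positivity)]
        have h14 := g2 h13
        have h15 := g2 hxDD
        unfold DD at h14 h15
        rw [mem_closedBall, dist_eq_norm] at h14 h15
        have h16 : ‖((1 / (100 * ‖L n x (j + 1)‖) : ℝ) : ℂ)‖ ≤
            1 / (100 * ‖L n c₀ j‖) + 1 / (100 * ‖L n c₀ j‖) := by
          have : ((1 / (100 * ‖L n x (j + 1)‖) : ℝ) : ℂ) =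
              (x + ((1 / (100 * ‖L n x (j + 1)‖) : ℝ) : ℂ) - c₀) - (x - c₀) := by ring
          rw [this]
          exact (norm_sub_le _ _).trans (add_le_add h14 h15)
        rw [Complex.norm_real, Real.norm_eq_abs, abs_of_pos (by positivity)] at h16
        have h17 : 1 / (1000 * ‖L n x (j + 1)‖) ≤ 1 / (100 * ‖L n x (j + 1)‖) := by
          gcongr
          norm_num
        have h18 : 1 / (100 * ‖L n c₀ j‖) + 1 / (100 * ‖L n c₀ j‖) = 1 / (50 * ‖L n c₀ j‖) := by
          field_simp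
          norm_num
        linarith
      · intro c hc
        have hc2 : c ∈ DD n x (j + 1) := by
          refine closedBall_subset_closedBall ?_ hc
          gcongr
          norm_num
        refine ⟨g2 hc2, ?_⟩
        have hvar := (hV n hn2 x (j + 1) g1 c hc2).2.1
        have hX2 : ‖X n c (j + 1)‖ ≤ (1 + 1 / 50) * ‖X n x (j + 1)‖ := by
          have := norm_sub_norm_le (X n c (j + 1)) (X n x (j + 1))
          linarith
        have hX3 : (1 - 1 / 50) * ‖X n x (j + 1)‖ ≤ ‖X n c (j + 1)‖ := by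
          have := norm_sub_norm_le (X n x (j + 1)) (X n c (j + 1))
          rw [norm_sub_rev] at this
          linarith
        have hc0 : 0 < ‖X n c (j + 1)‖ := lt_of_lt_of_le (by positivity) hX3
        have he1 : (2:ℝ) ≤ Real.exp 1 := by
          have := Real.add_one_le_exp (1:ℝ); linarith
        constructor
        · have h20 : u - 1 ≤ Real.log ‖X n c (j + 1)‖ := by
            rw [Real.le_log_iff_exp_le hc0, Real.exp_sub, ← h9, div_le_iff₀ (Real.exp_pos 1)]
            nlinarith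
          linarith
        · have h20 : Real.log ‖X n c (j + 1)‖ ≤ u + 1 := by
            rw [Real.log_le_iff_le_exp hc0, Real.exp_add, ← h9]
            nlinarith
          linarith
      · have h21 : closedBall x (5 * (1 / (1000 * ‖L n x (j + 1)‖))) = dd n x (j + 1) := by
          unfold dd
          congr 1
          field_simp
          norm_num
        rw [h21]
        refine hfr.trans ?_
        rw [vol_dd, ← mul_assoc]
        gcongr
        rw [mul_comm, show (25:ENNReal) = ENNReal.ofReal 25 by norm_num,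
          ← ENNReal.ofReal_mul (by norm_num)]
        apply ENNReal.ofReal_le_ofReal
        rw [h9, mul_assoc]
        gcongr
        rw [div_eq_mul_inv]
        gcongr
        rw [Real.sqrt_eq_rpow, ← Real.exp_mul, ← Real.exp_neg, ← Real.exp_add]
        apply Real.exp_le_exp.mpr
        linarith
    have h1 : R m = Bad n ∩ R m := by
      ext c
      constructor
      · intro h; exact ⟨h.1, h⟩
      · intro h; exact h.2
    rw [h1]
    refine key.trans ?_
    calc ENNReal.ofReal (25 * Φ * (Real.exp (-(umin D) / 2) * Real.exp (-(m:ℝ) / 2))) * volume U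
        ≤ ENNReal.ofReal (25 * Φ * (Real.exp (-(umin D) / 2) * Real.exp (-(m:ℝ) / 2))) *
          (ENNReal.ofReal (3300 / s) * volume (dd n c₀ j)) := by gcongr
      _ = _ := by
          rw [← mul_assoc, ← ENNReal.ofReal_mul (by positivity)]
          congr 2
          ring
  have hexpu : Real.exp (-(umin D) / 2) ≤ 1 / 10 ^ 10 := by
    have h1 := exp_umin hD
    have h2 : Real.exp (-(umin D) / 2) = (Real.exp (umin D / 2))⁻¹ := by
      rw [← Real.exp_neg]; congr 1; ring
    have h3 : (10:ℝ) ^ 10 ≤ Real.exp (umin D / 2) := by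
      have h4 : Real.exp (umin D / 2) ^ 2 = Real.exp (umin D) := by
        rw [← Real.exp_nat_mul]; congr 1; push_cast; ring
      by_contra h5
      push Not at h5
      have h6 : Real.exp (umin D / 2) ^ 2 < ((10:ℝ) ^ 10) ^ 2 := by
        gcongr
      rw [h4] at h6
      norm_num at h6 h1
      linarith
    rw [h2, one_div]
    gcongr
  calc volume (Bad n ∩ dd n c₀ j) ≤ volume (R0 ∪ ⋃ m ∈ Finset.range K, R m) := measure_mono hcov
    _ ≤ volume R0 + volume (⋃ m ∈ Finset.range K, R m) := measure_union_le _ _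
    _ ≤ volume R0 + ∑ m ∈ Finset.range K, volume (R m) := by
        gcongr
        exact measure_biUnion_finset_le _ _
    _ ≤ ENNReal.ofReal (1100 * (umin D + 4 + Real.log D) / s) * volume (dd n c₀ j) +
        ∑ m ∈ Finset.range K,
          ENNReal.ofReal (82500 * Φ * (Real.exp (-(umin D) / 2) * Real.exp (-(m:ℝ) / 2)) / s) *
            volume (dd n c₀ j) := by
        gcongr with m hm
        exact hRv m
    _ = ENNReal.ofReal (1100 * (umin D + 4 + Real.log D) / s) * volume (dd n c₀ j) +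
        ENNReal.ofReal (∑ m ∈ Finset.range K,
          82500 * Φ * (Real.exp (-(umin D) / 2) * Real.exp (-(m:ℝ) / 2)) / s) *
            volume (dd n c₀ j) := by
        rw [ENNReal.ofReal_sum_of_nonneg (fun m _ => by positivity), Finset.sum_mul]
    _ ≤ ENNReal.ofReal (1100 * (umin D + 4 + Real.log D) / s) * volume (dd n c₀ j) +
        ENNReal.ofReal (Φ / 1000 / s) * volume (dd n c₀ j) := by
        gcongr
        have h1 : ∑ m ∈ Finset.range K,
            82500 * Φ * (Real.exp (-(umin D) / 2) * Real.exp (-(m:ℝ) / 2)) / s =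
            82500 * Φ * Real.exp (-(umin D) / 2) / s *
              ∑ m ∈ Finset.range K, Real.exp (-(m:ℝ) / 2) := by
          rw [Finset.mul_sum]
          apply Finset.sum_congr rfl
          intro m _
          ring
        rw [h1]
        calc 82500 * Φ * Real.exp (-(umin D) / 2) / s *
              ∑ m ∈ Finset.range K, Real.exp (-(m:ℝ) / 2)
            ≤ 82500 * Φ * (1 / 10 ^ 10) / s * 3 := by
              gcongr
              exact geom_sum
          _ ≤ Φ / 1000 / s := by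
              rw [div_mul_eq_mul_div]
              gcongr
              nlinarith
    _ = _ := by
        rw [← add_mul, ← ENNReal.ofReal_add (by positivity) (by positivity)]
        congr 2
        ring

end Pool.Agent.W747.MB
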