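import Mathlib
import Pool.Agent.W747.MB.Rec

set_option autoImplicit false
open Metric MeasureTheory Set

namespace Pool.Agent.W747.MB

variable {n : ℕ}

theorem Frac.improve (hV : P_VAR) (hG : P_STG) (hP : P_PHS) (hL : P_ALV) (hT : P_VIT)
    (hW : P_LOW) (hS : P_SLC) (hn : 10 ^ 6 ≤ n) {Φ : ℝ} (hΦ : 0 ≤ Φ) (hF : Frac n Φ) :
    Frac n (1 / 2 + Φ / 2) := by
  intro c₀ j D cfg h20 h3 hlog hY1 hY2
  refine (recursion hV hG hP hL hT hW hS hn hΦ hF cfg h20 h3 hlog hY1 hY2).trans ?_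
  gcongr ENNReal.ofReal ?_ * _
  set s := ‖X n c₀ j‖ with hs
  have hs0 : 0 < s := lt_of_lt_of_le (by norm_num) h20
  have hΛ := Real.log_nonneg cfg.D1
  have hu := umin_le cfg.D1
  set Λ := Real.log D
  set t := √(√s) with ht
  have ht0 : 0 ≤ t := Real.sqrt_nonneg _
  have ht2 : t ^ 2 = √s := Real.sq_sqrt (Real.sqrt_nonneg _)
  have ht4 : t ^ 4 = s := by
    have : t ^ 4 = (t ^ 2) ^ 2 := by ring
    rw [this, ht2, Real.sq_sqrt hs0.le]
  have hΛt : Λ ≤ t := by
    by_contra h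
    push Not at h
    have : t ^ 4 < Λ ^ 4 := by gcongr
    linarith
  have ht5 : (10:ℝ) ^ 5 ≤ t := by
    by_contra h
    push Not at h
    have : t ^ 4 < ((10:ℝ) ^ 5) ^ 4 := by gcongr
    norm_num at this h20
    linarith
  have hss : 0 < √s := Real.sqrt_pos.mpr hs0
  have h1 : (1 / 2 + Φ / 2) / √s = (1 / 2 + Φ / 2) * √s / s := by
    rw [div_eq_div_iff hss.ne' hs0.ne']
    nlinarith [Real.sq_sqrt hs0.le]
  rw [h1]
  gcongr
  rw [← ht2]
  have h2 : 1100 * (umin D + 4 + Λ) ≤ 1 / 2 * t ^ 2 := by nlinarith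
  have h3 : Φ / 1000 ≤ Φ / 2 * t ^ 2 := by nlinarith
  linarith

theorem Frac.base (hn : 10 ^ 6 ≤ n) : Frac n (√(3 * n)) := by
  intro c₀ j D cfg h20 h3 hlog hY1 hY2
  have hs0 : 0 < ‖X n c₀ j‖ := lt_of_lt_of_le (by norm_num) h20
  calc volume (Bad n ∩ dd n c₀ j) ≤ volume (dd n c₀ j) := measure_mono inter_subset_right
    _ = 1 * volume (dd n c₀ j) := (one_mul _).symm
    _ ≤ _ := by
        gcongr
        rw [ENNReal.one_le_ofReal, one_le_div (Real.sqrt_pos.mpr hs0)]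
        exact Real.sqrt_le_sqrt h3

theorem Frac.all (hV : P_VAR) (hG : P_STG) (hP : P_PHS) (hL : P_ALV) (hT : P_VIT)
    (hW : P_LOW) (hS : P_SLC) (hn : 10 ^ 6 ≤ n) : Frac n 2 := by
  have key : ∀ k : ℕ, Frac n (1 + √(3 * n) / 2 ^ k) := by
    intro k
    induction k with
    | zero =>
      refine (Frac.base hn).mono ?_
      simp
    | succ k ih =>
      refine (ih.improve hV hG hP hL hT hW hS hn (by positivity)).mono (le_of_eq ?_)
      rw [pow_succ]
      field_simp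
      ring
  obtain ⟨k, hk⟩ := pow_unbounded_of_one_lt (√(3 * n)) (one_lt_two)
  refine (key k).mono ?_
  have : √(3 * n) / 2 ^ k ≤ 1 := by
    rw [div_le_one (by positivity)]
    exact hk.le
  linarith

theorem loc (hV : P_VAR) (hG : P_STG) (hP : P_PHS) (hL : P_ALV) (hT : P_VIT)
    (hW : P_LOW) (hS : P_SLC) (hB : P_BAS) : P_LOC := by
  refine ⟨10 ^ 6, by norm_num, ?_⟩
  intro n hn c₀ hY hY3
  have hn2 : 2 ≤ n := le_trans (by norm_num) hn
  have hY1 : 1 ≤ Y n c₀ := le_trans (by norm_num) hY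
  obtain ⟨cfg, -, hX⟩ := hB n hn2 c₀ hY1
  have hF := Frac.all hV hG hP hL hT hW hS hn
  set y := Y n c₀ with hy
  have hlog : Real.log (2 * y) ^ 4 ≤ ‖X n c₀ 1‖ := by
    rw [hX]
    have h1 := num1 (D := 1) (u := Real.log y) le_rfl (by
      unfold umin
      rw [Real.log_one, add_zero, Real.log_one, mul_zero, add_zero]
      exact Real.log_le_log (by norm_num) hY)
    rw [Real.exp_log (by linarith), mul_one] at h1
    exact h1
  have h := recursion hV hG hP hL hT hW hS hn (by norm_num) hF cfg (by rw [hX]; exact hY)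
    (by rw [hX]; exact hY3) hlog (by linarith) hY3
  refine h.trans ?_
  rw [hX]
  gcongr ENNReal.ofReal (?_ / _) * _
  have h1 := umin_le (D := 2 * y) (by linarith)
  have h2 : Real.log (2 * y) = Real.log 2 + Real.log y := Real.log_mul (by norm_num) (by linarith)
  have h3 := Real.log_two_lt_d9
  have h4 : 0 ≤ Real.log y := Real.log_nonneg hY1
  rw [h2] at h1 ⊢
  nlinarith

end Pool.Agent.W747.MB
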